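import Pool.Agent.H7.JB.Stmts

/-!
Row BUG of the board jb14: after `Pool/Agent/H67/GX/BUDX.lean` (helper67).
-/

set_option autoImplicit false

open Finset

namespace Pool.JB7

open Pool.Agent.H23.KT Pool.Agent.H46.KW Pool.KQ Pool.GT7 Pool.GU7 Pool.HZ7

private lemma bug_kc {V : Type} [Fintype V] [DecidableEq V] (G : SimpleGraph V) (p a : ℕ)
    (e C : ℝ) (v z : V) (P : Fin (p + 3) → Finset V) (U : Finset V)
    (hS : Str G p a e C (nb G univ v) P U) :
    ((Pool.KR.co G v z).card : ℝ) ≤ ((nb G (un P) z).card : ℝ) + C ∧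
    (kc G (Pool.KR.co G v z) 1 : ℝ) ≤ ((nb G (un P) z).card : ℝ) + C := by
  have h2 : Pool.KR.co G v z ⊆ nb G (un P) z ∪ U := by
    intro x hx
    rw [mem_union]
    have h4 : x ∈ nb G univ v ∧ G.Adj z x := (mem_nb G).1 hx
    rcases (hS.cov x).1 h4.1 with h5 | ⟨i, h5⟩
    · exact Or.inr h5
    · left
      rw [mem_nb]
      exact ⟨mem_biUnion.2 ⟨i, mem_univ _, h5⟩, h4.2⟩
  have h1 : (Pool.KR.co G v z).card ≤ (nb G (un P) z).card + U.card :=
    (card_le_card h2).trans (card_union_le _ _)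
  have h3 : ((Pool.KR.co G v z).card : ℝ) ≤ ((nb G (un P) z).card : ℝ) + (U.card : ℝ) := by
    exact_mod_cast h1
  have h5 : ((Pool.KR.co G v z).card : ℝ) ≤ ((nb G (un P) z).card : ℝ) + C := by
    linarith [hS.cU]
  refine ⟨h5, le_trans ?_ h5⟩
  exact_mod_cast kc_one (G := G) (Pool.KR.co G v z)

theorem bug_thm (_hGCG : GCGStmt) (hNDG : NDGStmt) (hNBG : NBGStmt) (hBDG : BDGStmt) :
    BUGStmt := by
  intro p r hP C₀ hC₀
  have hPW : PrW p r := (_hGCG p r hP).1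
  obtain ⟨K, hK, hB⟩ := hBDG p r hPW
  obtain ⟨eM, heM, hM⟩ := hNDG p r hP
  obtain ⟨eB, heB, hD⟩ := hNBG p r hP
  have hb : (0 : ℝ) < (p : ℝ) + 3 := by positivity
  obtain ⟨s, hs⟩ : ∃ s : ℝ, s = 1 / (4 * ((p : ℝ) + 3) ^ 2) := ⟨_, rfl⟩
  have hs0 : 0 < s := by rw [hs]; positivity
  obtain ⟨A₀, hA₀⟩ : ∃ x : ℝ, x = 2 * (K + 2 * C₀) / s := ⟨_, rfl⟩
  have hA00 : 0 < A₀ := by rw [hA₀]; positivity
  have hA0s : A₀ * s = 2 * (K + 2 * C₀) := by
    rw [hA₀, div_mul_cancel₀ _ hs0.ne']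
  have he1 : 0 < e1 p := by unfold e1; positivity
  refine ⟨C₀ + A₀ * ((p : ℝ) + 2), by positivity, min eM (min eB (e1 p)), by positivity,
    (min_le_right _ _).trans (min_le_right _ _), ?_⟩
  intro C
  obtain ⟨aM, haM⟩ := hM C
  obtain ⟨aB, haB⟩ := hD C
  obtain ⟨aA, haA⟩ := hB (s / 4) C (by positivity)
  obtain ⟨a1, ha1⟩ := exists_nat_ge (12 * C)
  obtain ⟨a2, ha2⟩ := exists_nat_ge (4 / s * C)
  refine ⟨aM + aB + aA + a1 + a2 + r + 1, ?_⟩
  intro a ha V _ _ G hG e he0 he z A P U hA hStr hdf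
  have haR : (0 : ℝ) ≤ (a : ℝ) := Nat.cast_nonneg a
  have hC1 : C ≤ 1 / 12 * a := by
    have h1 : (a1 : ℝ) ≤ a := by exact_mod_cast (by omega : a1 ≤ a)
    linarith
  have hC2 : C ≤ s / 4 * a := by
    have h1 : (a2 : ℝ) ≤ a := by exact_mod_cast (by omega : a2 ≤ a)
    have h2 : 4 / s * C ≤ a := ha2.trans h1
    have h3 : s / 4 * (4 / s * C) ≤ s / 4 * a :=
      mul_le_mul_of_nonneg_left h2 (by positivity)
    have h4 : s / 4 * (4 / s * C) = C := by
      field_simp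
    linarith
  have heM' : e ≤ eM := he.trans (min_le_left _ _)
  have heB' : e ≤ eB := he.trans ((min_le_right _ _).trans (min_le_left _ _))
  have heE' : e ≤ e1 p := he.trans ((min_le_right _ _).trans (min_le_right _ _))
  classical
  have hnn : ∀ v, 0 ≤ ndz G p r a (un (P v)) z := fun v => le_max_left _ _
  -- the payers
  obtain ⟨A', hA'⟩ : ∃ X : Finset V, X = A.filter (fun v => 0 < ndz G p r a (un (P v)) z) :=
    ⟨_, rfl⟩
  have hsum : ∑ v ∈ A, ndz G p r a (un (P v)) z = ∑ v ∈ A', ndz G p r a (un (P v)) z := by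
    rw [hA']
    symm
    apply sum_subset (filter_subset _ _)
    intro v hv hv2
    rw [mem_filter, not_and] at hv2
    exact le_antisymm (not_lt.1 (hv2 hv)) (hnn v)
  have key : ∀ v ∈ A', ((Pool.KR.co G v z).card : ℝ) ≤ (p : ℝ) * a ∧
      2 * ndz G p r a (un (P v)) z ≤
        (((p : ℝ) + 2) * a - (kc G (Pool.KR.co G v z) 1 : ℝ)) - 3 / 4 * s * a := by
    intro v hv
    rw [hA', mem_filter] at hv
    obtain ⟨hv1, hv2⟩ := hv
    obtain ⟨hS, hz⟩ := hStr v hv1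
    have hcb : CB G (nb G univ v) (p + 3) := CB.nb hG.cb (mem_univ v)
    have hn : ((nb G (un (P v)) z).card : ℝ) < ((p : ℝ) - 1 / 12) * a := by
      by_contra hcon
      have := haM a (by omega) G e (nb G univ v) (P v) (U v) hS he0 heM' hcb z hz
        (not_lt.1 hcon)
      exact hv2.ne' this
    obtain ⟨h1, h2⟩ := bug_kc G p a e C v z (P v) (U v) hS
    have h3 := haB a (by omega) G e (nb G univ v) (P v) (U v) hS he0 heB' hcb z hz
      (by
        have : 0 ≤ 1 / 12 * (a : ℝ) := by positivity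
        linarith) hv2
    rw [← hs] at h3
    constructor
    · linarith
    · linarith
  have hbda := haA a (by omega) G hG z A' (by
      rw [hA']
      exact (filter_subset _ _).trans hA) (by
      intro v hv
      have h1 := (key v hv).1
      have hv' := hv
      rw [hA', mem_filter] at hv'
      exact ⟨e, P v, U v, (hStr v hv'.1).1, he0, heE', h1⟩)
  rw [hsum]
  have h5 : 2 * ∑ v ∈ A', ndz G p r a (un (P v)) z ≤
      ∑ v ∈ A', (((p : ℝ) + 2) * a - (kc G (Pool.KR.co G v z) 1 : ℝ)) -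
        A'.card * (3 / 4 * s * a) := by
    rw [mul_sum]
    calc ∑ v ∈ A', 2 * ndz G p r a (un (P v)) z
        ≤ ∑ v ∈ A', ((((p : ℝ) + 2) * a - (kc G (Pool.KR.co G v z) 1 : ℝ)) - 3 / 4 * s * a) :=
          sum_le_sum (fun v hv => (key v hv).2)
      _ = _ := by rw [sum_sub_distrib, sum_const, nsmul_eq_mul]
  by_cases hcase : A₀ ≤ (A'.card : ℝ)
  · have h6 : 2 * (K + 2 * C₀) * a ≤ (A'.card : ℝ) * s * a := by
      apply mul_le_mul_of_nonneg_right _ haR
      rw [← hA0s]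
      exact mul_le_mul_of_nonneg_right hcase hs0.le
    linarith
  · have h6 : ∀ v ∈ A', ndz G p r a (un (P v)) z ≤ ((p : ℝ) + 2) * a := by
      intro v hv
      have h7 := (key v hv).2
      have h8 : (0 : ℝ) ≤ (kc G (Pool.KR.co G v z) 1 : ℝ) := Nat.cast_nonneg _
      have h9 : 0 ≤ 3 / 4 * s * a := by positivity
      have h10 := hnn v
      linarith
    have h7 : ∑ v ∈ A', ndz G p r a (un (P v)) z ≤ (A'.card : ℝ) * (((p : ℝ) + 2) * a) := by
      calc ∑ v ∈ A', ndz G p r a (un (P v)) z ≤ ∑ _v ∈ A', ((p : ℝ) + 2) * a := sum_le_sum h6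
        _ = _ := by rw [sum_const, nsmul_eq_mul]
    have h8 : (A'.card : ℝ) * (((p : ℝ) + 2) * a) ≤ A₀ * (((p : ℝ) + 2) * a) :=
      mul_le_mul_of_nonneg_right (not_le.1 hcase).le (by positivity)
    linarith

end Pool.JB7
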